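import Mathlib

namespace Pool.Agent.Results.MP_4e7634_nt.Exists

/-- number of partitions of `n` into powers of two -/
noncomputable def bin (n : ℕ) : ℕ := Nat.card {p : n.Partition // ∀ i ∈ p.parts, ∃ k, i = 2 ^ k}

/-- the sequence `w` extended by the constant `c` to negative indices -/
def ext (w : ℕ → ℕ) (c : ℕ) (m : ℤ) : ℕ := if m < 0 then c else w m.toNat

def B (n : ℕ) : Set (Multiset ℕ) := {s | (∀ i ∈ s, ∃ k, i = 2 ^ k) ∧ s.sum = n}

def eqv (n : ℕ) : {p : n.Partition // ∀ i ∈ p.parts, ∃ k, i = 2 ^ k} ≃ B n where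
  toFun p := ⟨p.1.parts, p.2, p.1.parts_sum⟩
  invFun s := ⟨⟨s.1, fun {i} hi => by obtain ⟨k, rfl⟩ := s.2.1 i hi; positivity, s.2.2⟩, s.2.1⟩
  left_inv p := rfl
  right_inv s := rfl

lemma bin_eq (n : ℕ) : bin n = (B n).ncard := by
  rw [bin, Nat.card_congr (eqv n)]; rfl

lemma B_fin (n : ℕ) : (B n).Finite := by
  have : Finite (B n) := Finite.of_equiv _ (eqv n)
  exact Set.toFinite _

lemma B_succ (n : ℕ) : (B (n + 1)).ncard = (B n).ncard + {s ∈ B (n + 1) | 1 ∉ s}.ncard := by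
  have h : B (n + 1) = (Multiset.cons 1 '' B n) ∪ {s ∈ B (n + 1) | 1 ∉ s} := by
    ext s
    constructor
    · intro hs
      by_cases h1 : 1 ∈ s
      · left
        obtain ⟨t, rfl⟩ := Multiset.exists_cons_of_mem h1
        refine ⟨t, ⟨fun i hi => hs.1 i (Multiset.mem_cons_of_mem hi), ?_⟩, rfl⟩
        have := hs.2
        rw [Multiset.sum_cons] at this
        omega
      · exact Or.inr ⟨hs, h1⟩
    · rintro (⟨t, ht, rfl⟩ | hs)
      · refine ⟨fun i hi => ?_, ?_⟩
        · rcases Multiset.mem_cons.1 hi with rfl | hi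
          · exact ⟨0, rfl⟩
          · exact ht.1 i hi
        · rw [Multiset.sum_cons, ht.2]; omega
      · exact hs.1
  have hd : Disjoint (Multiset.cons 1 '' B n) {s ∈ B (n + 1) | 1 ∉ s} := by
    rw [Set.disjoint_left]
    rintro _ ⟨t, _, rfl⟩ h
    exact h.2 (Multiset.mem_cons_self _ _)
  conv_lhs => rw [h]
  rw [Set.ncard_union_eq hd ((B_fin n).image _) ((B_fin (n + 1)).subset (fun s hs => hs.1)),
    Set.ncard_image_of_injective _ (fun a b hab => (Multiset.cons_inj_right 1).1 hab)]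

lemma half (s : Multiset ℕ) (h : ∀ i ∈ s, ∃ k, i = 2 ^ k) (h1 : 1 ∉ s) :
    ∃ t : Multiset ℕ, (∀ i ∈ t, ∃ k, i = 2 ^ k) ∧ s = t.map (fun x => 2 * x) := by
  refine ⟨s.map (fun x => x / 2), ?_, ?_⟩
  · intro i hi
    obtain ⟨j, hj, rfl⟩ := Multiset.mem_map.1 hi
    obtain ⟨k, rfl⟩ := h j hj
    cases k with
    | zero => exact absurd hj h1
    | succ k => exact ⟨k, by rw [pow_succ]; omega⟩
  · rw [Multiset.map_map]
    conv_lhs => rw [← Multiset.map_id s]
    refine Multiset.map_congr rfl ?_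
    intro j hj
    obtain ⟨k, rfl⟩ := h j hj
    cases k with
    | zero => exact absurd hj h1
    | succ k => simp only [id, Function.comp]; rw [pow_succ]; omega

lemma odd_part (m : ℕ) : {s ∈ B (2 * m + 1) | 1 ∉ s} = ∅ := by
  ext s
  simp only [Set.mem_sep_iff, Set.mem_empty_iff_false, iff_false]
  rintro ⟨hs, h1⟩
  obtain ⟨t, _, rfl⟩ := half s hs.1 h1
  have := hs.2
  rw [Multiset.sum_map_mul_left] at this
  omega

lemma even_part (m : ℕ) : {s ∈ B (2 * m) | 1 ∉ s} = Multiset.map (fun x => 2 * x) '' B m := by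
  ext s
  constructor
  · rintro ⟨hs, h1⟩
    obtain ⟨t, ht, rfl⟩ := half s hs.1 h1
    refine ⟨t, ⟨ht, ?_⟩, rfl⟩
    have := hs.2
    rw [Multiset.sum_map_mul_left] at this
    simp only [Multiset.map_id'] at this
    omega
  · rintro ⟨t, ht, rfl⟩
    refine ⟨⟨?_, ?_⟩, ?_⟩
    · intro i hi
      obtain ⟨j, hj, rfl⟩ := Multiset.mem_map.1 hi
      obtain ⟨k, rfl⟩ := ht.1 j hj
      exact ⟨k + 1, by rw [pow_succ]; omega⟩
    · rw [Multiset.sum_map_mul_left]
      simp only [Multiset.map_id']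
      rw [ht.2]
    · intro h
      obtain ⟨j, _, hj⟩ := Multiset.mem_map.1 h
      omega

lemma bin_odd (m : ℕ) : bin (2 * m + 1) = bin (2 * m) := by
  rw [bin_eq, bin_eq, B_succ, odd_part]; simp

lemma bin_even (m : ℕ) : bin (2 * (m + 1)) = bin (2 * m) + bin (m + 1) := by
  rw [← bin_odd m, bin_eq, bin_eq, bin_eq]
  have := B_succ (2 * m + 1)
  rw [show 2 * m + 1 + 1 = 2 * (m + 1) by ring, even_part,
    Set.ncard_image_of_injective _ (Multiset.map_injective (fun a b h => by simpa using h))] at this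
  exact this

lemma bin_pos (n : ℕ) : 0 < bin n := by
  rw [bin_eq, Set.ncard_pos (B_fin n)]
  refine ⟨Multiset.replicate n 1, fun i hi => ⟨0, Multiset.eq_of_mem_replicate hi⟩, by simp⟩

lemma bin_lb (m : ℕ) : m + 1 ≤ bin (2 * m) := by
  induction m with
  | zero => exact bin_pos _
  | succ m ih => rw [bin_even]; have := bin_pos (m + 1); omega

lemma bin_lb' (n : ℕ) : n / 2 + 1 ≤ bin n := by
  rcases Nat.even_or_odd' n with ⟨m, rfl | rfl⟩
  · have := bin_lb m; omega
  · rw [bin_odd]; have := bin_lb m; omega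

lemma bin_lb2 (j : ℕ) : 24 * j ≤ bin (2 * (46 + j)) := by
  induction j with
  | zero => simp
  | succ j ih =>
    rw [← add_assoc, bin_even]
    have := bin_lb' (46 + j + 1)
    omega

lemma bin_big (m : ℕ) (h : 93 ≤ m) : 12 * m + 8 < bin (2 * m) := by
  have := bin_lb2 (m - 46)
  rw [show 46 + (m - 46) = m by omega] at this
  omega

lemma two_big (m : ℕ) : 12 * m + 11 < 2 ^ (m + 4) := by
  induction m with
  | zero => norm_num
  | succ m ih => rw [show m + 1 + 4 = m + 4 + 1 by ring, pow_succ]; omega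

noncomputable def tb (r m : ℕ) : ℕ :=
  match r with
  | 0 => bin (2 * m)
  | 1 => 12 * m + 4
  | 2 => 5
  | 3 => 12
  | 4 => 6 * m + 6
  | 5 => 2 ^ (m + 4)
  | 6 => bin (2 * m + 1)
  | 7 => 12
  | 8 => 11
  | 9 => 2 ^ (m + 4)
  | 10 => 6 * m + 6
  | _ => 6

noncomputable def W (n : ℕ) : ℕ := tb (n % 12) (n / 12)

lemma W_eq (m r : ℕ) (h : r < 12) : W (12 * m + r) = tb r m := by
  rw [W, show (12 * m + r) % 12 = r by omega, show (12 * m + r) / 12 = m by omega]

lemma W_six (n : ℕ) : W (6 * n) = bin n := by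
  rcases Nat.even_or_odd' n with ⟨m, rfl | rfl⟩
  · rw [show 6 * (2 * m) = 12 * m + 0 by ring, W_eq _ _ (by norm_num)]; rfl
  · rw [show 6 * (2 * m + 1) = 12 * m + 6 by ring, W_eq _ _ (by norm_num)]; rfl

lemma ext_of (z : ℤ) (n : ℕ) (h : z = n) : ext W 0 z = W n := by
  subst h; simp [ext]

lemma ext_tb (z : ℤ) (m r : ℕ) (hr : r < 12) (h : z = 12 * m + r) : ext W 0 z = tb r m := by
  rw [ext_of z (12 * m + r) (by push_cast; exact h), W_eq _ _ hr]

lemma ext_neg (z : ℤ) (h : z < 0) : ext W 0 z = 0 := by simp [ext, h]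

lemma recur (m r : ℕ) (hr : r < 12) (hm : 93 ≤ m) :
    tb r (m + 1) = ext W 0 ((12 * (m + 1) + r : ℕ) - ext W 0 ((12 * (m + 1) + r : ℕ) - 2)) + tb r m := by
  have b1 := bin_big (m + 1) (by omega)
  have b2 := bin_odd (m + 1)
  have b3 := two_big (m + 1)
  interval_cases r
  · rw [ext_tb (_ - 2) m 10 (by norm_num) (by push_cast; ring),
      ext_of _ (6 * (m + 1)) (by simp only [tb]; push_cast; ring), W_six]
    simp only [tb]; rw [bin_even]; ring
  · rw [ext_tb (_ - 2) m 11 (by norm_num) (by push_cast; ring),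
      ext_tb _ m 7 (by norm_num) (by simp only [tb]; push_cast; ring)]
    simp only [tb]; ring
  · rw [ext_tb (_ - 2) (m + 1) 0 (by norm_num) (by push_cast; ring), ext_neg _ (by simp only [tb]; omega)]
    simp only [tb]
  · rw [ext_tb (_ - 2) (m + 1) 1 (by norm_num) (by push_cast; ring), ext_neg _ (by simp only [tb]; omega)]
    simp only [tb]
  · rw [ext_tb (_ - 2) (m + 1) 2 (by norm_num) (by push_cast; ring),
      ext_tb _ m 11 (by norm_num) (by simp only [tb]; push_cast; ring)]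
    simp only [tb]; ring
  · rw [ext_tb (_ - 2) (m + 1) 3 (by norm_num) (by push_cast; ring),
      ext_tb _ m 5 (by norm_num) (by simp only [tb]; push_cast; ring)]
    simp only [tb]; ring
  · rw [ext_tb (_ - 2) (m + 1) 4 (by norm_num) (by push_cast; ring),
      ext_of _ (6 * (m + 1)) (by simp only [tb]; push_cast; ring), W_six]
    simp only [tb]; rw [bin_odd, bin_odd, bin_even]; ring
  · rw [ext_tb (_ - 2) (m + 1) 5 (by norm_num) (by push_cast; ring), ext_neg _ (by simp only [tb]; omega)]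
    simp only [tb]
  · rw [ext_tb (_ - 2) (m + 1) 6 (by norm_num) (by push_cast; ring), ext_neg _ (by simp only [tb]; omega)]
    simp only [tb]
  · rw [ext_tb (_ - 2) (m + 1) 7 (by norm_num) (by push_cast; ring),
      ext_tb _ m 9 (by norm_num) (by simp only [tb]; push_cast; ring)]
    simp only [tb]; ring
  · rw [ext_tb (_ - 2) (m + 1) 8 (by norm_num) (by push_cast; ring),
      ext_tb _ m 11 (by norm_num) (by simp only [tb]; push_cast; ring)]
    simp only [tb]; ring
  · rw [ext_tb (_ - 2) (m + 1) 9 (by norm_num) (by push_cast; ring), ext_neg _ (by simp only [tb]; omega)]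
    simp only [tb]

theorem result : ∃ (p q : ℕ) (u : Fin p → ℕ) (v : Fin q → ℕ) (c k : ℕ) (w : ℕ → ℕ) (a b : ℕ),
    (∀ i, 0 < u i) ∧ (∀ j, 0 < v j) ∧ (∀ n, 0 < w n) ∧
    (∀ n : ℕ, k ≤ n → w n = ∑ i, ext w c ((n : ℤ) - ext w c ((n : ℤ) - u i)) +
      ∑ j, ext w c ((n : ℤ) - v j)) ∧
    1 ≤ a ∧ ∀ n, w (a * n + b) = bin n := by
  refine ⟨1, 1, fun _ => 2, fun _ => 12, 0, 12 * 94, W, 6, 0, by simp, by simp, ?_, ?_, by norm_num,
    W_six⟩
  · intro n
    unfold W tb
    split <;> first | exact bin_pos _ | positivity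
  · intro n hn
    obtain ⟨m, r, hr, rfl⟩ : ∃ m r, r < 12 ∧ n = 12 * (m + 1) + r :=
      ⟨n / 12 - 1, n % 12, by omega, by omega⟩
    simp only [Finset.univ_unique, Finset.sum_singleton]
    rw [W_eq _ _ hr, ext_tb (_ - ((12 : ℕ) : ℤ)) m r hr (by push_cast; ring)]
    exact recur m r hr (by omega)

end Pool.Agent.Results.MP_4e7634_nt.Exists
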